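import Pool.Agent.Helper17.RZ.St3

/-!
# Project RZ, module C1: localisation and lifting
-/

set_option autoImplicit false

namespace Pool.Agent.Helper74.RZ

open Pool.Agent.Helper17.RZ

universe u

noncomputable section

theorem locFun : LocFun.{u} := by
  intro k _ K _ _ Z σ τ hσ hστ c hc
  obtain ⟨i0, hi0⟩ := hσ
  have hgen : ∀ j, Z.a j / Z.a i0 ∈ Z.A σ := fun j => Algebra.subset_adjoin ⟨i0, hi0, j, rfl⟩
  have h1 : (1 : K) ≠ 0 ∧ (1 : K) ∈ Z.A σ ∧ (1 : K)⁻¹ ∈ Z.A τ :=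
    ⟨one_ne_zero, (Z.A σ).one_mem, by rw [inv_one]; exact (Z.A τ).one_mem⟩
  refine Algebra.adjoin_induction
    (p := fun c _ => ∃ g : K, g ≠ 0 ∧ g ∈ Z.A σ ∧ g⁻¹ ∈ Z.A τ ∧ g * c ∈ Z.A σ) ?_ ?_ ?_ ?_ hc
  · rintro x ⟨i, hi, j, rfl⟩
    refine ⟨Z.a i / Z.a i0, div_ne_zero (Z.a_ne i) (Z.a_ne i0), hgen i, ?_, ?_⟩
    · rw [inv_div]; exact Algebra.subset_adjoin ⟨i, hi, i0, rfl⟩
    · have : Z.a i / Z.a i0 * (Z.a j / Z.a i) = Z.a j / Z.a i0 := by
        have h2 := Z.a_ne i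
        have h3 := Z.a_ne i0
        field_simp
      rw [this]; exact hgen j
  · intro r
    exact ⟨1, h1.1, h1.2.1, h1.2.2, by rw [one_mul]; exact (Z.A σ).algebraMap_mem r⟩
  · rintro x y _ _ ⟨g, hg0, hg1, hg2, hg3⟩ ⟨g', hg0', hg1', hg2', hg3'⟩
    refine ⟨g * g', mul_ne_zero hg0 hg0', (Z.A σ).mul_mem hg1 hg1', ?_, ?_⟩
    · rw [mul_inv]; exact (Z.A τ).mul_mem hg2 hg2'
    · have : g * g' * (x + y) = g' * (g * x) + g * (g' * y) := by ring
      rw [this]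
      exact (Z.A σ).add_mem ((Z.A σ).mul_mem hg1' hg3) ((Z.A σ).mul_mem hg1 hg3')
  · rintro x y _ _ ⟨g, hg0, hg1, hg2, hg3⟩ ⟨g', hg0', hg1', hg2', hg3'⟩
    refine ⟨g * g', mul_ne_zero hg0 hg0', (Z.A σ).mul_mem hg1 hg1', ?_, ?_⟩
    · rw [mul_inv]; exact (Z.A τ).mul_mem hg2 hg2'
    · have : g * g' * (x * y) = (g * x) * (g' * y) := by ring
      rw [this]
      exact (Z.A σ).mul_mem hg3 hg3'

theorem locVec : LocVec.{u} := by
  intro k _ K _ _ Z X σ τ hσ hστ v hv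
  rw [X.lat_loc σ τ hσ hστ] at hv
  refine Submodule.span_induction
    (p := fun v _ => ∃ g : K, g ≠ 0 ∧ g ∈ Z.A σ ∧ g⁻¹ ∈ Z.A τ ∧ g • v ∈ X.lat σ) ?_ ?_ ?_ ?_ hv
  · intro x hx
    exact ⟨1, one_ne_zero, (Z.A σ).one_mem, by rw [inv_one]; exact (Z.A τ).one_mem, by
      rw [one_smul]; exact hx⟩
  · exact ⟨1, one_ne_zero, (Z.A σ).one_mem, by rw [inv_one]; exact (Z.A τ).one_mem, by
      rw [smul_zero]; exact (X.lat σ).zero_mem⟩
  · rintro x y _ _ ⟨g, hg0, hg1, hg2, hg3⟩ ⟨g', hg0', hg1', hg2', hg3'⟩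
    refine ⟨g * g', mul_ne_zero hg0 hg0', (Z.A σ).mul_mem hg1 hg1', ?_, ?_⟩
    · rw [mul_inv]; exact (Z.A τ).mul_mem hg2 hg2'
    · have : (g * g') • (x + y) = (⟨g', hg1'⟩ : Z.A σ) • (g • x) + (⟨g, hg1⟩ : Z.A σ) • (g' • y) := by
        change (g * g') • (x + y) = g' • (g • x) + g • (g' • y)
        rw [smul_add, mul_smul, mul_smul, smul_comm g g' x]
      rw [this]
      exact (X.lat σ).add_mem ((X.lat σ).smul_mem _ hg3) ((X.lat σ).smul_mem _ hg3')
  · rintro c x _ ⟨g, hg0, hg1, hg2, hg3⟩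
    obtain ⟨g', hg0', hg1', hg2', hg3'⟩ := locFun k K Z σ τ hσ hστ c c.2
    refine ⟨g' * g, mul_ne_zero hg0' hg0, (Z.A σ).mul_mem hg1' hg1, ?_, ?_⟩
    · rw [mul_inv]; exact (Z.A τ).mul_mem hg2' hg2
    · have : (g' * g) • (c • x) = (⟨g' * (c : K), hg3'⟩ : Z.A σ) • (g • x) := by
        change (g' * g) • ((c : K) • x) = (g' * (c : K)) • (g • x)
        rw [← mul_smul, ← mul_smul]
        congr 1
        ring
      rw [this]
      exact (X.lat σ).smul_mem _ hg3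

theorem liftLem : LiftLem.{u} := by
  intro k _ K _ _ Z X σ hσ U W _ _ _ _ lU lW g φ hφ hg
  classical
  -- restricted maps
  let gA : U →ₗ[Z.A σ] W := g.restrictScalars (Z.A σ)
  let φA : X.V →ₗ[Z.A σ] W := φ.restrictScalars (Z.A σ)
  let N : Submodule (Z.A σ) U := lU ⊓ lW.comap gA
  let gN : N →ₗ[Z.A σ] lW := (gA.domRestrict N).codRestrict lW (fun x => x.2.2)
  let φM : X.lat σ →ₗ[Z.A σ] lW := (φA.domRestrict (X.lat σ)).codRestrict lW (fun x => hφ x.1 x.2)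
  have hgN : Function.Surjective gN := by
    rintro ⟨w, hw⟩
    obtain ⟨x, hx, hxw⟩ := hg w hw
    exact ⟨⟨x, hx, by change g x ∈ lW; rw [hxw]; exact hw⟩, Subtype.ext hxw⟩
  have := X.lat_proj σ hσ
  obtain ⟨ψ0, hψ0⟩ := Module.projective_lifting_property gN φM hgN
  -- a basis inside the lattice
  let b := Module.Basis.ofVectorSpace K X.V
  have hc : ∀ e, ∃ c : K, c ≠ 0 ∧ c • b e ∈ X.lat σ := fun e => by
    obtain ⟨c, hc0, hc⟩ := X.lat_gen σ hσ (b e)
    exact ⟨c, fun h => hc0 (Subtype.ext h), hc⟩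
  choose c hc0 hcm using hc
  let b' := b.unitsSMul (fun e => Units.mk0 (c e) (hc0 e))
  have hb' : ∀ e, b' e ∈ X.lat σ := fun e => by
    rw [Module.Basis.unitsSMul_apply]
    exact hcm e
  let ψ : X.V →ₗ[K] U := b'.constr K (fun e => ((ψ0 ⟨b' e, hb' e⟩ : N) : U))
  have hψb : ∀ e, ψ (b' e) = ((ψ0 ⟨b' e, hb' e⟩ : N) : U) := fun e => b'.constr_basis K _ e
  have key : ∀ v (hv : v ∈ X.lat σ), ψ v = ((ψ0 ⟨v, hv⟩ : N) : U) := by
    intro v hv
    have hd : ∀ e, ∃ d : Z.A σ, d ≠ 0 ∧ (d : K) * (b'.repr v e) ∈ Z.A σ := fun e =>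
      Z.exists_mul_mem σ hσ _
    choose d hd0 hdm using hd
    let D : Z.A σ := ∏ e ∈ (b'.repr v).support, d e
    have hD0 : D ≠ 0 := Finset.prod_ne_zero_iff.mpr fun e _ => hd0 e
    have hDm : ∀ e ∈ (b'.repr v).support, (D : K) * (b'.repr v e) ∈ Z.A σ := by
      intro e he
      have h1 : (D : K) * (b'.repr v e) =
          ((∏ e' ∈ (b'.repr v).support.erase e, d e' : Z.A σ) : K) * ((d e : K) * (b'.repr v e)) := by
        have h2 : D = d e * ∏ e' ∈ (b'.repr v).support.erase e, d e' :=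
          (Finset.mul_prod_erase _ d he).symm
        rw [h2]
        push_cast
        ring
      rw [h1]
      exact (Z.A σ).mul_mem (SetLike.coe_mem _) (hdm e)
    let r : _ → Z.A σ := fun e =>
      if h : e ∈ (b'.repr v).support then ⟨(D : K) * (b'.repr v e), hDm e h⟩ else 0
    have hr : ∀ e ∈ (b'.repr v).support, ((r e : Z.A σ) : K) = (D : K) * (b'.repr v e) := by
      intro e he
      simp only [r, dif_pos he]
    have hsum : (D • (⟨v, hv⟩ : X.lat σ)) =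
        ∑ e ∈ (b'.repr v).support, r e • (⟨b' e, hb' e⟩ : X.lat σ) := by
      apply Subtype.ext
      rw [Submodule.coe_smul, Submodule.coe_sum]
      change (D : K) • v = ∑ e ∈ (b'.repr v).support, ((r e : Z.A σ) : K) • b' e
      rw [Finset.sum_congr rfl (fun e he => by rw [hr e he, mul_smul]), ← Finset.smul_sum]
      congr 1
      conv_lhs => rw [← b'.linearCombination_repr v]
      rw [Finsupp.linearCombination_apply, Finsupp.sum]
    have h3 : (D : K) • ((ψ0 ⟨v, hv⟩ : N) : U) = (D : K) • ψ v := by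
      have h4 := congrArg (fun x => ((ψ0 x : N) : U)) hsum
      simp only [map_smul, map_sum] at h4
      rw [Submodule.coe_smul, Submodule.coe_sum] at h4
      have h5 : (D : K) • ((ψ0 ⟨v, hv⟩ : N) : U) =
          ∑ e ∈ (b'.repr v).support, ((r e : Z.A σ) : K) • ((ψ0 ⟨b' e, hb' e⟩ : N) : U) := h4
      rw [h5, Finset.sum_congr rfl (fun e he => by rw [hr e he, mul_smul, ← hψb e]),
        ← Finset.smul_sum]
      congr 1
      conv_rhs => rw [← b'.linearCombination_repr v]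
      rw [Finsupp.linearCombination_apply, Finsupp.sum, map_sum]
      exact Finset.sum_congr rfl (fun e _ => (map_smul ψ _ _).symm)
    have hDK : (D : K) ≠ 0 := fun h => hD0 (Subtype.ext h)
    exact (smul_right_injective U hDK h3).symm
  refine ⟨ψ, fun v hv => ?_, ?_⟩
  · rw [key v hv]
    exact (ψ0 ⟨v, hv⟩).2.1
  · refine b'.ext fun e => ?_
    rw [LinearMap.comp_apply, hψb e]
    have h6 := congrArg (fun f => ((f ⟨b' e, hb' e⟩ : lW) : W)) hψ0
    exact h6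

end

end Pool.Agent.Helper74.RZ
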