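import Pool.Agent.Helper17.RZ.St3

/-!
# Project RZ, module C3: kernels of surjections of bundles
-/

set_option autoImplicit false

namespace Pool.Agent.Helper74.RZ

open Pool.Agent.Helper17.RZ

universe u

noncomputable section

variable {k : Type u} [Field k] {K : Type u} [Field K] [Algebra k K] {Z : ProjVar k K}

/-- the sections of the kernel -/
def kerLat (X V : Cplx Z) (π : X.V →ₗ[K] V.V) (σ : Finset Z.I) :
    Submodule (Z.A σ) (LinearMap.ker π) where
  carrier := {y | (y : X.V) ∈ X.lat σ}
  add_mem' := fun ha hb => (X.lat σ).add_mem ha hb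
  zero_mem' := (X.lat σ).zero_mem
  smul_mem' := fun c _ h => (X.lat σ).smul_mem c h

theorem mem_kerLat (X V : Cplx Z) (π : X.V →ₗ[K] V.V) (σ : Finset Z.I) (y : LinearMap.ker π) :
    y ∈ kerLat X V π σ ↔ (y : X.V) ∈ X.lat σ := Iff.rfl

/-- the inclusion on sections -/
def kerInc (X V : Cplx Z) (π : X.V →ₗ[K] V.V) (σ : Finset Z.I) :
    kerLat X V π σ →ₗ[Z.A σ] X.lat σ where
  toFun y := ⟨((y : LinearMap.ker π) : X.V), y.2⟩
  map_add' _ _ := rfl
  map_smul' _ _ := rfl

/-- the retraction on sections -/
def kerRet (X V : Cplx Z) (π : X.V →ₗ[K] V.V) (σ : Finset Z.I) (s : V.V →ₗ[K] X.V)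
    (hs : ∀ v ∈ X.lat σ, s (π v) ∈ X.lat σ) (hs' : ∀ v, π (s v) = v) :
    X.lat σ →ₗ[Z.A σ] kerLat X V π σ where
  toFun x := ⟨⟨(x : X.V) - s (π x), by
    rw [LinearMap.mem_ker, map_sub, hs', sub_self]⟩, (X.lat σ).sub_mem x.2 (hs x.1 x.2)⟩
  map_add' x y := by
    apply Subtype.ext
    apply Subtype.ext
    change ((x : X.V) + y) - s (π ((x : X.V) + y)) = ((x : X.V) - s (π x)) + ((y : X.V) - s (π y))
    rw [map_add, map_add]
    abel
  map_smul' c x := by
    apply Subtype.ext
    apply Subtype.ext
    change ((c : K) • (x : X.V)) - s (π ((c : K) • (x : X.V))) = (c : K) • ((x : X.V) - s (π x))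
    rw [map_smul, map_smul, smul_sub]

theorem kerEx : LocFun.{u} → LocVec.{u} → LiftLem.{u} → KerEx.{u} := by
  intro _ hLV hLift k _ K _ _ Z X V π hX hV hπ
  have hsec : ∀ σ : Finset Z.I, σ.Nonempty → ∃ s : V.V →ₗ[K] X.V,
      (∀ v ∈ X.lat σ, s (π v) ∈ X.lat σ) ∧ ∀ v, π (s v) = v := by
    intro σ hσ
    obtain ⟨s, hs1, hs2⟩ := hLift k K Z V σ hσ X.V V.V (X.lat σ) (V.lat σ) π LinearMap.id
      (fun v hv => hv) (fun w hw => (hπ σ hσ w).mp hw)
    exact ⟨s, fun v hv => hs1 _ ((hπ σ hσ _).mpr ⟨v, hv, rfl⟩), fun v => LinearMap.congr_fun hs2 v⟩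
  let Y : Cplx Z :=
    { V := LinearMap.ker π
      pr := fun i => if i = 0 then LinearMap.id else 0
      bd := 0
      pr_pr := by
        intro i j
        by_cases hi : i = 0
        · by_cases hj : j = 0
          · subst hi; subst hj; simp
          · subst hi; simp [hj, Ne.symm hj]
        · by_cases hij : i = j
          · subst hij; simp [hi]
          · simp [hi, hij]
      pr_bd := by
        intro i hi
        have : i ≠ 0 := by rintro rfl; simp at hi
        simp [this]
      pr_sum := by simp
      d := 0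
      d_pr := by intro i; simp
      d_d := by simp
      lat := fun σ => kerLat X V π σ
      lat_fin := by
        intro σ hσ
        obtain ⟨s, hs1, hs2⟩ := hsec σ hσ
        have := X.lat_fin σ hσ
        refine Module.Finite.of_surjective (kerRet X V π σ s hs1 hs2) ?_
        intro y
        refine ⟨kerInc X V π σ y, ?_⟩
        apply Subtype.ext
        apply Subtype.ext
        change ((y : LinearMap.ker π) : X.V) - s (π ((y : LinearMap.ker π) : X.V)) = _
        rw [LinearMap.mem_ker.mp (y : LinearMap.ker π).2, map_zero, sub_zero]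
      lat_proj := by
        intro σ hσ
        obtain ⟨s, hs1, hs2⟩ := hsec σ hσ
        have := X.lat_proj σ hσ
        refine Module.Projective.of_split (kerInc X V π σ) (kerRet X V π σ s hs1 hs2) ?_
        ext y
        change ((y : LinearMap.ker π) : X.V) - s (π ((y : LinearMap.ker π) : X.V)) = _
        rw [LinearMap.mem_ker.mp (y : LinearMap.ker π).2, map_zero, sub_zero]
        rfl
      lat_gen := by
        intro σ hσ v
        obtain ⟨c, hc0, hc⟩ := X.lat_gen σ hσ (v : X.V)
        exact ⟨c, hc0, hc⟩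
      lat_loc := by
        intro σ τ hσ hστ
        apply le_antisymm
        · intro v hv
          obtain ⟨g, hg0, hg1, hg2, hg3⟩ := hLV k K Z X σ τ hσ hστ (v : X.V) hv
          have h1 : v = (⟨g⁻¹, hg2⟩ : Z.A τ) • (g • v) := by
            change v = g⁻¹ • (g • v)
            rw [inv_smul_smul₀ hg0]
          rw [h1]
          refine Submodule.smul_mem _ _ (Submodule.subset_span ?_)
          exact hg3
        · rw [Submodule.span_le]
          intro v hv
          change (v : X.V) ∈ X.lat τ
          rw [X.lat_loc σ τ hσ hστ]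
          exact Submodule.subset_span hv
      lat_pr := by
        intro σ i v hv
        by_cases h : i = 0
        · simpa [h] using hv
        · simp [h]
      lat_d := by
        intro σ v hv
        simp }
  refine ⟨Y, (LinearMap.ker π).subtype, ?_, Subtype.val_injective, ?_, ?_⟩
  · change (if (0 : ℤ) = 0 then LinearMap.id else 0) = LinearMap.id
    rw [if_pos rfl]
  · intro x
    constructor
    · intro h
      exact ⟨⟨x, LinearMap.mem_ker.mpr h⟩, rfl⟩
    · rintro ⟨y, rfl⟩
      exact LinearMap.mem_ker.mp y.2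
  · intro σ _ y
    exact Iff.rfl

end

end Pool.Agent.Helper74.RZ
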